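import Pool.Agent.Run7.h198.MixMain
import Pool.Agent.Helper431.CycleIso

/-!
# The mixed metric dimension of 2-connected graphs is at most twice the cyclomatic number

Every 2-connected finite graph `G` which is not a cycle satisfies `mdim G ≤ 2 c(G)`,
`c(G) = |E(G)| - |V(G)| + 1`.

Proof. Let `T` be a breadth first search tree with root `r`; `c(G)` edges are not in `T`, let `N` be
the set of their ends. Then `N ∪ {r}` is a mixed resolving set: if two vertices `x, y` of the same
depth are not resolved by a descendant `z ∈ N` of `x` of least depth, then a shortest path from `y`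
to `z` has a first edge outside `T`, whose upper end is a descendant of `y` in `N` of smaller depth.
If two edges outside `T` have a common end then `|N ∪ {r}| ≤ 2 c(G)`. Otherwise let `b` be a vertex
of largest depth and `ab` the edge outside `T` at `b`. Climbing up the two branches which contain
`a` and `b` one shows, as `G` is 2-connected and not a cycle, that the vertices are already resolved
by `(N ∖ {a, b}) ∪ {r}`, and then that one can leave out `a` or `b` (`a`, if `b` has larger depth
than `a`; otherwise `a` or `b` according to which of the two is nearer to some member of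
`(N ∖ {a, b}) ∪ {r}`).
-/

set_option autoImplicit false

namespace Pool.Agent.Results.MP_ca4ce9_co.TwoConnected

open SimpleGraph

/-- `G` is 2-connected: it has at least three vertices, it is connected, and it has no cut-vertex
(it remains connected if any vertex is deleted). -/
def IsTwoConnected {V : Type*} [Fintype V] (G : SimpleGraph V) : Prop :=
  3 ≤ Fintype.card V ∧ G.Connected ∧ ∀ v : V, (G.induce {v}ᶜ).Connected

/-- The distance from the vertex `w` to an element of the graph, that is, to a vertex or to an edge;
for an edge it is the smaller of the distances to the two ends. -/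
noncomputable def elemDist {V : Type*} (G : SimpleGraph V) (w : V) : V ⊕ G.edgeSet → ℕ
  | Sum.inl v => G.dist w v
  | Sum.inr e => Sym2.lift ⟨fun u v => min (G.dist w u) (G.dist w v), fun _ _ => min_comm _ _⟩ e.1

/-- `S` is a mixed resolving set: any two distinct elements of `G` (vertices or edges) have different
distances from some member of `S`. -/
def MixedResolving {V : Type*} (G : SimpleGraph V) (S : Finset V) : Prop :=
  ∀ x y : V ⊕ G.edgeSet, x ≠ y → ∃ s ∈ S, elemDist G s x ≠ elemDist G s y

/-- The mixed metric dimension: the smallest size of a mixed resolving set. -/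
noncomputable def mdim {V : Type*} (G : SimpleGraph V) : ℕ :=
  sInf {k | ∃ S : Finset V, S.card = k ∧ MixedResolving G S}

/-- The cyclomatic number `|E| - |V| + 1` of a connected graph. -/
noncomputable def cyclomatic {V : Type*} [Fintype V] (G : SimpleGraph V) : ℤ :=
  (Nat.card G.edgeSet : ℤ) - Fintype.card V + 1

theorem resolving_of_good {V : Type*} {G : SimpleGraph V} {r : V} {T : Run7.h198.Mix.BFS G r}
    {A : Finset V} (h : T.Good (A : Set V)) : MixedResolving G A := by
  have hedge : ∀ e : G.edgeSet, (∃ v, v ≠ r ∧ e.1 = s(T.par v, v)) ∨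
      (∃ u v, T.NT u v ∧ e.1 = s(u, v)) := by
    rintro ⟨e, he⟩
    induction e using Sym2.ind with
    | _ p q =>
      rw [mem_edgeSet] at he
      by_cases h1 : T.par p = q
      · left
        refine ⟨p, ?_, ?_⟩
        · rintro rfl
          rw [T.root] at h1
          exact he.ne h1
        · simp only [h1]
          exact Sym2.eq_swap
      · by_cases h2 : T.par q = p
        · left
          refine ⟨q, ?_, ?_⟩
          · rintro rfl
            rw [T.root] at h2
            exact he.ne h2.symm
          · simp only [h2]
        · right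
          exact ⟨p, q, ⟨he, h1, h2⟩, rfl⟩
  have hve : ∀ (y : V) (e : G.edgeSet), ∃ s ∈ A, elemDist G s (Sum.inr e) ≠ G.dist s y := by
    intro y e
    rcases hedge e with ⟨v, hv, he⟩ | ⟨u, v, huv, he⟩
    · by_cases hd : G.dist r (T.par v) = G.dist r y
      · obtain ⟨s, hs, hne⟩ := h.ve v y hv hd
        refine ⟨s, hs, ?_⟩
        simp only [elemDist, he, Sym2.lift_mk]
        exact hne
      · refine ⟨r, h.root, ?_⟩
        simp only [elemDist, he, Sym2.lift_mk]
        have := T.depth v hv
        omega
    · obtain ⟨s, hs, hne⟩ := h.nv u v y huv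
      refine ⟨s, hs, ?_⟩
      simp only [elemDist, he, Sym2.lift_mk]
      exact hne
  rintro (x | e) (y | f) hxy
  · by_cases hd : G.dist r x = G.dist r y
    · obtain ⟨s, hs, hne⟩ := h.vv x y (fun h1 => hxy (by rw [h1])) hd
      exact ⟨s, hs, hne⟩
    · exact ⟨r, h.root, hd⟩
  · obtain ⟨s, hs, hne⟩ := hve x f
    exact ⟨s, hs, hne.symm⟩
  · obtain ⟨s, hs, hne⟩ := hve y e
    exact ⟨s, hs, hne⟩
  · have hef : e.1 ≠ f.1 := fun h1 => hxy (by rw [Subtype.ext h1])
    rcases hedge e with ⟨v, hv, he⟩ | ⟨u, v, huv, he⟩
    · rcases hedge f with ⟨v', hv', hf⟩ | ⟨u', v', huv', hf⟩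
      · have hvv : v ≠ v' := by
          rintro rfl
          exact hef (he.trans hf.symm)
        by_cases hd : G.dist r v = G.dist r v'
        · obtain ⟨s, hs, hne⟩ := h.ee v v' hv hv' hvv hd
          refine ⟨s, hs, ?_⟩
          simp only [elemDist, he, hf, Sym2.lift_mk]
          exact hne
        · refine ⟨r, h.root, ?_⟩
          simp only [elemDist, he, hf, Sym2.lift_mk]
          have h1 := T.depth v hv
          have h2 := T.depth v' hv'
          omega
      · obtain ⟨s, hs, hne⟩ := h.ne u' v' (T.par v) v huv' (T.adj v hv).symm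
          (by rw [← he, ← hf]; exact hef.symm)
        refine ⟨s, hs, ?_⟩
        simp only [elemDist, he, hf, Sym2.lift_mk]
        exact hne.symm
    · obtain ⟨⟨f, hf'⟩⟩ : Nonempty {f' : G.edgeSet // f' = f} := ⟨⟨f, rfl⟩⟩
      subst hf'
      obtain ⟨f, hfm⟩ := f
      induction f using Sym2.ind with
      | _ p q =>
        obtain ⟨s, hs, hne⟩ := h.ne u v p q huv hfm (by rw [← he]; exact hef)
        refine ⟨s, hs, ?_⟩
        simp only [elemDist, he, Sym2.lift_mk]
        exact hne

/-- **The mixed metric dimension of a 2-connected graph which is not a cycle is at most twice its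
cyclomatic number.** -/
theorem result {V : Type*} [Fintype V] (G : SimpleGraph V) (hG : IsTwoConnected G)
    (hcyc : ¬ ∃ n : ℕ, Nonempty (G ≃g cycleGraph n)) :
    (mdim G : ℤ) ≤ 2 * cyclomatic G := by
  classical
  obtain ⟨h3, hc, hcut⟩ := hG
  have hno := Run7.h198.Mix.noCut_of_induce hcut
  have hdeg : ∀ v, 2 ≤ G.degree v := by
    intro v
    obtain ⟨u1, -, h1⟩ := Run7.h198.Mix.exists_nbr h3 hno v v
    obtain ⟨u2, h2, h4⟩ := Run7.h198.Mix.exists_nbr h3 hno v u1
    rw [← card_neighborFinset_eq_degree]
    have hsub : ({u1, u2} : Finset V) ⊆ G.neighborFinset v := by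
      intro x hx
      rw [Finset.mem_insert, Finset.mem_singleton] at hx
      rw [mem_neighborFinset]
      rcases hx with rfl | rfl
      · exact h1
      · exact h4
    have := Finset.card_le_card hsub
    rwa [Finset.card_pair h2.symm] at this
  have hm : Fintype.card V < G.edgeFinset.card := by
    by_contra hle
    push Not at hle
    apply hcyc
    refine Pool.Agent.Helper431.exists_iso_cycleGraph hc hdeg ?_
    by_contra hcon
    push Not at hcon
    obtain ⟨v, hv⟩ := hcon
    have h1 := G.sum_degrees_eq_twice_card_edges
    have h2 : ∑ w : V, 2 < ∑ w : V, G.degree w :=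
      Finset.sum_lt_sum (fun w _ => hdeg w) ⟨v, Finset.mem_univ v, hv⟩
    rw [Finset.sum_const, smul_eq_mul, Finset.card_univ] at h2
    omega
  have he : Nat.card G.edgeSet = G.edgeFinset.card := by
    rw [Nat.card_eq_fintype_card, edgeFinset_card]
  rw [← he] at hm
  obtain ⟨r, T, A, hA, hcard⟩ := Run7.h198.Mix.exists_good h3 hc hno hm
  have hle : mdim G ≤ A.card := Nat.sInf_le ⟨A, rfl, resolving_of_good hA⟩
  unfold cyclomatic
  omega

end Pool.Agent.Results.MP_ca4ce9_co.TwoConnected
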